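import Pool.Agent.TH305.LG.Fin5

/-!
Estimates for all derivatives, at all times and all scales, along the paths of the particles, for
smooth solutions of the three-dimensional Navier-Stokes equations, uniformly up to a possible
blow-up time. Solutions in the whole space and periodic solutions.

`V = Fin 3 → ℝ` with the maximum norm. See the claim file for the definitions.
-/

open MeasureTheory Set Metric
open scoped ENNReal

namespace Pool.Agent.Results.MP_6bf1e5_an.AllDerivatives

open H459R3.NS W221.NS Pool.Agent.TH305.DR Pool.Agent.TH305.LG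

/-- There are an absolute constant `C` and constants `K n` with the following properties. Let
`(u, p)` be a smooth solution of the Navier-Stokes equations with viscosity `ν`, without force,
either on `(0, T) × ℝ³` with `∫ |u|² ≤ E²` at all times, or `1`-periodic on `[0, T)`; in the
periodic case all volumes are those of the parts in the unit cube, `E² = ∫ |u(0)|²`, and the radii
`r` satisfy `C (1 + E² / ν²) r ≤ 1`. Let `badW K ν r (u t)` be the set of the points at which for
some `n ≥ 0` a derivative of order `n` of the vorticity of `u t` exceeds `K n ν / r ^ (n + 2)`, and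
`badV K ν r (u t)` the set of the points at which for some `n ≥ 1` a derivative of order `n` of
`u t` exceeds `K n ν / r ^ (n + 1)`.

First, if `1024 r² / ν < t₁ < T`, then the positions at the time `t₁` of the particles which, at
SOME time `t` in `[t₁, T)`, are within distance `r` of `badW K ν r (u t)`, form a set of volume at
most `(C / ν) r² ∫∫ |∇u|²`, the integral over the times between `t₁ - 1024 r² / ν` and `T`.

Second, if `∫∫ |∇u|²` is finite (periodic case: always), then for almost every particle there is an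
`r > 0` such that it is not within distance `r` of `badW K ν r (u t)` for any `t` in `[t₁, T)`.

Third, for each time `s < T` and each `r > 0` with `256 r² / ν < s`, the `r`-neighbourhood of
`badW K ν r (u s)` has volume at most `(C / ν) r² ∫∫ |∇u|²`, the integral over the times between
`s - 256 r² / ν` and `s`; for `badV K ν r (u s)` the bound is the same plus `C (E r / ν)²`.

Fourth, if `∫∫ |∇u|²` is finite (periodic case: always), then for each `n` the volume of the set of
the points at which a derivative of order `n` of the vorticity exceeds `a` is at most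
`ε a ^ (-2 / (n + 2))` for all large `a`, uniformly in time on `(s₀, T)`, for all `s₀, ε > 0`. -/
theorem result : ∃ C : ℝ, 0 < C ∧ ∃ K : ℕ → ℝ, (∀ n, 0 < K n) ∧
    -- solutions in the whole space
    (∀ (ν T E : ℝ) (u : ℝ → V → V) (p : ℝ → V → ℝ), 0 < ν → 0 ≤ E → OSol ν T E univ u p →
      (∀ r t₁ : ℝ, 0 < r → 1024 * r ^ 2 / ν < t₁ → t₁ < T →
        volume (badP K ν r u t₁ T) ≤ ENNReal.ofReal (C / ν * r ^ 2) *
          ∫⁻ t in Ioo (t₁ - 1024 * r ^ 2 / ν) T, ∫⁻ y, ENNReal.ofReal (gsq (u t) y)) ∧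
      (∫⁻ t in Ioo 0 T, ∫⁻ y, ENNReal.ofReal (gsq (u t) y) ≠ ⊤ →
        ∀ t₁ ∈ Ioo 0 T, volume (badZ K ν u t₁ T) = 0) ∧
      (∀ r s : ℝ, 0 < r → 256 * r ^ 2 / ν < s → s < T →
        volume (thickening r (badW K ν r (u s))) ≤ ENNReal.ofReal (C / ν * r ^ 2) *
          ∫⁻ t in Ioo (s - 256 * r ^ 2 / ν) s, ∫⁻ y, ENNReal.ofReal (gsq (u t) y) ∧
        volume (thickening r (badV K ν r (u s))) ≤ ENNReal.ofReal (C * (E * r / ν) ^ 2)
          + ENNReal.ofReal (C / ν * r ^ 2) *
            ∫⁻ t in Ioo (s - 256 * r ^ 2 / ν) s, ∫⁻ y, ENNReal.ofReal (gsq (u t) y)) ∧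
      (∫⁻ t in Ioo 0 T, ∫⁻ y, ENNReal.ofReal (gsq (u t) y) ≠ ⊤ →
        ∀ (n : ℕ) (s₀ ε : ℝ), 0 < s₀ → 0 < ε → ∃ L : ℝ, 0 < L ∧ ∀ a : ℝ, L ≤ a →
          ∀ s ∈ Ioo s₀ T, volume (Big n a (u s))
            ≤ ENNReal.ofReal (ε * a ^ (-(2 / (n + 2) : ℝ))))) ∧
    -- periodic solutions
    ∀ (ν T : ℝ) (u : ℝ → V → V) (p : ℝ → V → ℝ), 0 < ν → IsSol ν T u p →
      (∀ r t₁ : ℝ, 0 < r → C * (1 + energy (u 0) / ν ^ 2) * r ≤ 1 → 1024 * r ^ 2 / ν < t₁ →
        t₁ < T → volume (badP K ν r u t₁ T ∩ cube) ≤ ENNReal.ofReal (C / ν * r ^ 2 *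
          ∫ t in Ioo (t₁ - 1024 * r ^ 2 / ν) T, enstrophy (u t))) ∧
      (∀ t₁ ∈ Ioo 0 T, volume (badZ K ν u t₁ T ∩ cube) = 0) ∧
      (∀ r s : ℝ, 0 < r → C * (1 + energy (u 0) / ν ^ 2) * r ≤ 1 → 256 * r ^ 2 / ν < s → s < T →
        volume (thickening r (badW K ν r (u s) ∩ cube)) ≤ ENNReal.ofReal (C / ν * r ^ 2 *
          ∫ t in Ioo (s - 256 * r ^ 2 / ν) s, enstrophy (u t)) ∧
        volume (thickening r (badV K ν r (u s) ∩ cube)) ≤
          ENNReal.ofReal (C * energy (u 0) * (r / ν) ^ 2)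
          + ENNReal.ofReal (C / ν * r ^ 2 *
            ∫ t in Ioo (s - 256 * r ^ 2 / ν) s, enstrophy (u t))) ∧
      ∀ (n : ℕ) (s₀ ε : ℝ), 0 < s₀ → 0 < ε → ∃ L : ℝ, 0 < L ∧ ∀ a : ℝ, L ≤ a →
        ∀ s ∈ Ioo s₀ T, volume (Big n a (u s) ∩ cube)
          ≤ ENNReal.ofReal (ε * a ^ (-(2 / (n + 2) : ℝ))) :=
  Pool.Agent.TH305.LG.allT

end Pool.Agent.Results.MP_6bf1e5_an.AllDerivatives
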