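import Pool.Agent.TH305.LW.Fin5
import Pool.Agent.TH305.LW.LogG

/-!
The singular set of a solution of the Navier-Stokes equations at its first blow-up time `T`:
the inverse square of the distance to it is integrable, its Hausdorff measure vanishes for each
gauge `h` with `∫ dr / h(r) = ∞`, and the dissipation in late time windows, weighted by a power of
`T - t`, bounds the number of singular points. Periodic solutions and solutions in the whole space,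
with a force.

`V = Fin 3 → ℝ` with the maximum norm. See the claim file for the definitions.
-/

open MeasureTheory Set Metric Filter Topology
open scoped ContDiff ENNReal

namespace Pool.Agent.Results.MP_6bf1e5_an.InverseSquareDistance

open H459R3.NS W221.NS

theorem result : ∃ C : ℝ, 0 < C ∧
    -- periodic solutions
    (∀ (ν T F : ℝ) (u : ℝ → V → V) (p : ℝ → V → ℝ) (f : ℝ → V → V), 0 < ν → 0 < T →
      IsSolF ν T F u p f →
      (∃ r₀ : ℝ, 0 < r₀ ∧ ∀ r : ℝ, 0 < r → r < r₀ →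
        (∀ S : Finset V, (∀ x ∈ S, x ∈ cube ∧ Sing T u x) →
          (∀ x ∈ S, ∀ y ∈ S, x ≠ y → r ≤ ‖x - y‖) →
            S.card * r ≤ C / ν * ∫ t in Ioo (T - 256 * r ^ 2 / ν) T,
              (ν * (T - t) / r ^ 2) ^ (1 / 1152 : ℝ) * enstrophy (u t)) ∧
        ∫⁻ x in thickening r {x ∈ cube | Sing T u x},
            (infEDist x {x ∈ cube | Sing T u x} ^ 2)⁻¹
          ≤ ENNReal.ofReal (C / ν * ∫ t in Ioo (T - 256 * r ^ 2 / ν) T, enstrophy (u t))) ∧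
      (∀ h : ℝ≥0∞ → ℝ≥0∞, Monotone h → ∫⁻ r in Ioo (0 : ℝ) 1, (h (ENNReal.ofReal r))⁻¹ = ⊤ →
        Measure.mkMetric h {x ∈ cube | Sing T u x} = 0) ∧
      Measure.mkMetric (fun d => d * ENNReal.ofReal (1 + Real.posLog d.toReal⁻¹))
        {x ∈ cube | Sing T u x} = 0 ∧
      ∀ M : ℝ, 0 ≤ M → ((∃ᶠ h in 𝓝[>] (0 : ℝ), ∫ t in Ioo (T - h) T,
          ((T - t) / h) ^ (1 / 1152 : ℝ) * enstrophy (u t) ≤ M * √h) ∨
          ∃ᶠ h in 𝓝[>] (0 : ℝ), ∫ t in Ioo (T - h) (T - h ^ 577), enstrophy (u t) ≤ M * √h) →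
        ∀ S : Finset V, (∀ x ∈ S, x ∈ cube ∧ Sing T u x) → (S.card : ℝ) ≤ C * M / (ν * √ν)) ∧
    -- solutions in the whole space
    ∀ (ν T E F : ℝ) (u : ℝ → V → V) (p : ℝ → V → ℝ) (f : ℝ → V → V), 0 < ν →
      0 < T → OSolF ν T E F univ u p f →
      ∫⁻ t in Ioo 0 T, ∫⁻ y, ENNReal.ofReal (gsq (u t) y) ≠ ⊤ →
      (∃ r₀ : ℝ, 0 < r₀ ∧ ∀ r : ℝ, 0 < r → r < r₀ →
        (∀ S : Finset V, (∀ x ∈ S, Sing T u x) →
          (∀ x ∈ S, ∀ y ∈ S, x ≠ y → r ≤ ‖x - y‖) →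
            ENNReal.ofReal (S.card * r) ≤ ENNReal.ofReal (C / ν) *
              ∫⁻ t in Ioo (T - 256 * r ^ 2 / ν) T,
                ENNReal.ofReal ((ν * (T - t) / r ^ 2) ^ (1 / 1152 : ℝ)) *
                  ∫⁻ y, ENNReal.ofReal (gsq (u t) y)) ∧
        ∫⁻ x in thickening r {x | Sing T u x}, (infEDist x {x | Sing T u x} ^ 2)⁻¹
          ≤ ENNReal.ofReal (C / ν) * ∫⁻ t in Ioo (T - 256 * r ^ 2 / ν) T,
            ∫⁻ y, ENNReal.ofReal (gsq (u t) y)) ∧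
      (∀ h : ℝ≥0∞ → ℝ≥0∞, Monotone h → ∫⁻ r in Ioo (0 : ℝ) 1, (h (ENNReal.ofReal r))⁻¹ = ⊤ →
        Measure.mkMetric h {x | Sing T u x} = 0) ∧
      Measure.mkMetric (fun d => d * ENNReal.ofReal (1 + Real.posLog d.toReal⁻¹))
        {x | Sing T u x} = 0 ∧
      ∀ M : ℝ, 0 ≤ M → ((∃ᶠ h in 𝓝[>] (0 : ℝ), ∫⁻ t in Ioo (T - h) T,
          ENNReal.ofReal (((T - t) / h) ^ (1 / 1152 : ℝ)) *
            ∫⁻ y, ENNReal.ofReal (gsq (u t) y) ≤ ENNReal.ofReal (M * √h)) ∨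
          ∃ᶠ h in 𝓝[>] (0 : ℝ), ∫⁻ t in Ioo (T - h) (T - h ^ 577),
            ∫⁻ y, ENNReal.ofReal (gsq (u t) y) ≤ ENNReal.ofReal (M * √h)) →
        ∀ S : Finset V, (∀ x ∈ S, Sing T u x) → (S.card : ℝ) ≤ C * M / (ν * √ν) := by
  obtain ⟨C₁, hC₁, H₁⟩ := Pool.Agent.TH305.LW.peri_final5
  obtain ⟨C₂, hC₂, H₂⟩ := Pool.Agent.TH305.LW.omega_final5
  obtain ⟨C, hC⟩ : ∃ C, C = max C₁ C₂ := ⟨_, rfl⟩
  have hle1 : C₁ ≤ C := by rw [hC]; exact le_max_left _ _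
  have hle2 : C₂ ≤ C := by rw [hC]; exact le_max_right _ _
  refine ⟨C, hC₁.trans_le hle1, ?_, ?_⟩
  · intro ν T F u p f hν hT hu
    obtain ⟨⟨ρ, hρ, ha⟩, hb, hc⟩ := H₁ ν T F u p f hν hT hu
    refine ⟨⟨ρ, hρ, fun r hr hrr => ⟨fun S hS hsep => ?_, ?_⟩⟩, hb,
      hb _ Pool.Agent.TH305.LW.lg_mono Pool.Agent.TH305.LW.lg_div, fun M hM hfr S hS => ?_⟩
    · refine ((ha r hr hrr).1 S hS hsep).trans ?_
      have h6 : 0 ≤ ∫ t in Ioo (T - 256 * r ^ 2 / ν) T,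
          (ν * (T - t) / r ^ 2) ^ (1 / 1152 : ℝ) * enstrophy (u t) :=
        setIntegral_nonneg measurableSet_Ioo fun t ht =>
          mul_nonneg (Real.rpow_nonneg (div_nonneg (mul_nonneg hν.le (by linarith [ht.2]))
            (by positivity)) _) (W221.NS.enstrophy_nonneg _)
      gcongr
    · refine (ha r hr hrr).2.trans (ENNReal.ofReal_le_ofReal ?_)
      have h6 : 0 ≤ ∫ t in Ioo (T - 256 * r ^ 2 / ν) T, enstrophy (u t) :=
        integral_nonneg fun t => W221.NS.enstrophy_nonneg _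
      gcongr
    · refine (hc M hM hfr S hS).trans ?_
      gcongr
  · intro ν T E F u p f hν hT hu hfin
    have H := H₂ ν T E F univ univ u p f hν hT hu (Or.inr ⟨rfl, rfl⟩)
    simp only [Measure.restrict_univ, mem_univ, true_and] at H
    obtain ⟨⟨ρ, hρ, ha⟩, hb, hc⟩ := H hfin
    refine ⟨⟨ρ, hρ, fun r hr hrr => ⟨fun S hS hsep => ?_, ?_⟩⟩, hb,
      hb _ Pool.Agent.TH305.LW.lg_mono Pool.Agent.TH305.LW.lg_div, fun M hM hfr S hS => ?_⟩
    · refine ((ha r hr hrr).2.1 S hS hsep).trans (mul_le_mul_left (ENNReal.ofReal_le_ofReal ?_) _)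
      gcongr
    · refine (ha r hr hrr).2.2.trans (mul_le_mul_left (ENNReal.ofReal_le_ofReal ?_) _)
      gcongr
    · refine (hc M hM hfr S hS).trans ?_
      gcongr

end Pool.Agent.Results.MP_6bf1e5_an.InverseSquareDistance
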