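import Pool.Agent.TH616.NSH.Main
import Pool.Agent.TH616.NSH.Ex

/-!
A regularity criterion for the three-dimensional Navier-Stokes equations on the torus in which only
the triads of helical modes with mixed helicities count, and only up to two-dimensional families.
-/

open MeasureTheory Set H459R3.NS

set_option autoImplicit false

namespace Pool.Agent.Results.MP_6bf1e5_an.MixedHelicity

/-- The Euclidean length `|k|` of a frequency. -/
noncomputable def len (k : Fin 3 → ℤ) : ℝ := Real.sqrt (∑ j, (k j : ℝ) ^ 2)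

/-- The helical part of the field `v` with helicity `s = ± 1` at the frequency `k`:
`v̂ˢ(k) = (v̂(k) + s i k × v̂(k) / |k|) / 2`, and `0` at `k = 0`. Here `v̂(k)` is the vector of the
Fourier coefficients `∫ exp(-2πi k·x) vᵢ(x) dx`. If `div v = 0`, then `v̂(k) = v̂⁺(k) + v̂⁻(k)` for
`k ≠ 0`, and `v̂ˢ(k)` is the part of `v̂(k)` on which the curl is `2π s |k|`. -/
noncomputable def hel (s : ℤˣ) (v : V → V) (k : Fin 3 → ℤ) (i : Fin 3) : ℂ :=
  if k = 0 then 0 else (fr (fun x => v x i) k + ((s : ℤ) : ℂ) *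
    (Complex.I * crossProduct (fun j => (k j : ℂ)) (fun j => fr (fun x => v x j) k) i
      / (len k : ℂ))) / 2

/-- A helical mode is a pair `(k, s)` of a frequency and a helicity. The size of the part of `v`
with modes in `Z` at the frequency `k`: the square root of the sum of `|v̂ˢ(k)|²` over the `s = ± 1`
with `(k, s) ∈ Z`. -/
noncomputable def size (Z : Set ((Fin 3 → ℤ) × ℤˣ)) (v : V → V) (k : Fin 3 → ℤ) : ℝ :=
  Real.sqrt (∑ s : ℤˣ, Z.indicator (fun m => ∑ i, ‖hel m.2 v m.1 i‖ ^ 2) (k, s))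

/-- The `L²` norm of the `j`-th dyadic block of the part of `v` with modes in `Z`, given by the
frequencies with `2 ^ j ≤ |k| < 2 ^ (j + 1)`. -/
noncomputable def block (j : ℕ) (Z : Set ((Fin 3 → ℤ) × ℤˣ)) (v : V → V) : ℝ :=
  Real.sqrt (∑' k, {k | 2 ^ j ≤ len k ∧ len k < 2 ^ (j + 1)}.indicator
    (fun k => size Z v k ^ 2) k)

/-- The critical energy `∑ |k| |v̂(k)|²`. -/
noncomputable def crit (v : V → V) : ℝ := ∑' k, len k * ∑ i, ‖fr (fun x => v x i) k‖ ^ 2

/-- The triad `a, b, c` is not collinear, and one can choose helicities for `a`, `b`, `c` which are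
not all equal such that none of the three helical modes is in `Z`. -/
def Free (Z : Set ((Fin 3 → ℤ) × ℤˣ)) (a b c : Fin 3 → ℤ) : Prop :=
  crossProduct a b ≠ 0 ∧
    ∃ r s t : ℤˣ, ¬(r = s ∧ s = t) ∧ (a, r) ∉ Z ∧ (b, s) ∉ Z ∧ (c, t) ∉ Z

/-- The family of the triads which are free of `Z` has dimension at most two, with constant `A`:
each of these triads can be assigned to one of its two longer sides, as a pair (shortest side,
longer side), in such a way that for every frequency `b` at most `A |b|²` pairs are assigned to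
`b`. -/
def TwoDim (A : ℝ) (Z : Set ((Fin 3 → ℤ) × ℤˣ)) : Prop :=
  ∃ F : Set ((Fin 3 → ℤ) × (Fin 3 → ℤ)),
    (∀ b : Fin 3 → ℤ,
      ({a : Fin 3 → ℤ | len a ≤ len b ∧ (a, b) ∈ F}.ncard : ℝ) ≤ A * len b ^ 2) ∧
    ∀ a b c : Fin 3 → ℤ, a + b + c = 0 → len a ≤ len b → len a ≤ len c → Free Z a b c →
      (a, b) ∈ F ∨ (a, c) ∈ F

/-- First example: the modes with one helicity meet all triads with mixed helicities. -/
theorem twoDim_helicity (s : ℤˣ) : TwoDim 0 {m : (Fin 3 → ℤ) × ℤˣ | m.2 = s} :=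
  Pool.Agent.TH616.NSH.twoD_helicity s

/-- Second example: a set `Q` of frequencies with at most `A r²` elements in every cube of radius
`r ≥ 1` (such as a union of finitely many planes), if all triads free of `Z` have a side in `Q`. -/
theorem twoDim_of_dimTwo {A : ℝ} {Q : Set (Fin 3 → ℤ)} {Z : Set ((Fin 3 → ℤ) × ℤˣ)}
    (hQ : ∀ (x : Fin 3 → ℤ) (r : ℕ), 1 ≤ r →
      (({q ∈ Q | ∀ j, |q j - x j| ≤ r}).ncard : ℝ) ≤ A * r ^ 2)
    (h : ∀ a b c : Fin 3 → ℤ, a + b + c = 0 → Free Z a b c → a ∈ Q ∨ b ∈ Q ∨ c ∈ Q) :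
    TwoDim (2 * A) Z :=
  Pool.Agent.TH616.NSH.twoD_of_dimTwo hQ h

/-- Third example: triads with a side of length at most a constant times the power `2/3` of the
length of a longer side. -/
theorem twoDim_nonlocal {K : ℝ} {Z : Set ((Fin 3 → ℤ) × ℤˣ)} (hK : 0 ≤ K)
    (h : ∀ a b c : Fin 3 → ℤ, a + b + c = 0 → len a ≤ len b → len a ≤ len c → Free Z a b c →
      len a ^ 3 ≤ K * len b ^ 2 ∨ len a ^ 3 ≤ K * len c ^ 2) :
    TwoDim (27 * K) Z :=
  Pool.Agent.TH616.NSH.twoD_nonlocal hK h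

/-- There is an absolute constant `c > 0` such that for all `1 < q < ∞` and `1 ≤ r ≤ 2` there is a
constant `C` with the following property.

Let `(u, p)` be a smooth `1`-periodic solution of the Navier-Stokes equations with viscosity
`ν > 0`, without force, on `[0, T)`. Let `A ≥ 0`, and for every time `t ∈ (0, T)` let `X(t)` and
`Y(t)` be sets of helical modes such that the family of the triads with mixed helicities which are
free of `X(t) ∪ Y(t)` has dimension at most two, with constant `A`. Let `β, γ ≥ 0` be functions with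
`∫ β^q < ∞` and `∫ γ^r < ∞`, and suppose that for every `t ∈ (0, T)`
* the `L²` norm of the `j`-th dyadic block of the part of `u(t)` with modes in `X(t)` is at most
  `c ν 2^(-j/2) + β(t) 2^(-(1/2 + 2/q) j)` for every `j`,
* the sum of `|k|^(2/r - 1) |û(t)(k)|` for the part of `u(t)` with modes in `Y(t)` is at most `γ(t)`.
Then for all `t ∈ [0, T)`
`∑ |k| |û(t)(k)|² ≤ ∑ |k| |û(0)(k)|² exp (C (ν^(1-q) ∫ β^q + ν^(1-r) ∫ γ^r + A ν^(-2) ∫ |u(0)|²))`,
and `u` is bounded on `[0, T) × ℝ³`, so that `T` is not a blow-up time.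

Examples. (1) `X(t)` is the set of all modes with helicity `s(t)`, where `s(t)` is an arbitrary
function, `Y = ∅`, `A = 0` (`twoDim_helicity`): it is enough that the part of `u` with helicity
`s(t)` is bounded by `β(t)` in the Besov space `B^(1/2 + 2/q)_{2,∞}` (or in the Sobolev space
`H^(1/2 + 2/q)`), and for `Y` instead of `X` with `r = 1` that
`∫₀ᵀ ∑ |k| |û^{s(t)}(t)(k)| dt < ∞`.
(2) If only finitely many blocks are controlled by `β`, the first condition is smallness of the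
high frequencies of the `X(t)` part in the critical space `B^(1/2)_{2,∞}`.
(3) The modes with frequencies in a set of dimension two (`twoDim_of_dimTwo`) and the triads with
one side `|a| ≤ K |b|^(2/3)` (`twoDim_nonlocal`) need not be controlled; these sets may depend on
the time. -/
theorem result : ∃ c : ℝ, 0 < c ∧ ∀ q r : ℝ, 1 < q → 1 ≤ r → r ≤ 2 → ∃ C : ℝ, 0 ≤ C ∧
    ∀ (ν T A : ℝ) (u : ℝ → V → V) (p : ℝ → V → ℝ)
      (X Y : ℝ → Set ((Fin 3 → ℤ) × ℤˣ)) (β γ : ℝ → ℝ),
      0 < ν → IsSol ν T u p → 0 ≤ A →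
      (∀ t ∈ Ioo 0 T, TwoDim A (X t ∪ Y t)) →
      (∀ t ∈ Ioo 0 T, 0 ≤ β t ∧ 0 ≤ γ t) →
      IntegrableOn (fun t => β t ^ q) (Ioo 0 T) → IntegrableOn (fun t => γ t ^ r) (Ioo 0 T) →
      (∀ t ∈ Ioo 0 T, ∀ j : ℕ, block j (X t) (u t)
        ≤ c * ν * 2 ^ (-(1 / 2) * (j : ℝ)) + β t * 2 ^ (-(1 / 2 + 2 / q) * (j : ℝ))) →
      (∀ t ∈ Ioo 0 T, ∑' k, len k ^ (2 / r - 1) * size (Y t) (u t) k ≤ γ t) →
      (∀ t ∈ Ico 0 T, crit (u t) ≤ crit (u 0) * Real.exp
        (C * (ν ^ (1 - q) * (∫ s in Ioo 0 T, β s ^ q) + ν ^ (1 - r) * (∫ s in Ioo 0 T, γ s ^ r)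
          + A / ν ^ 2 * energy (u 0)))) ∧
      ∃ M, ∀ t ∈ Ico 0 T, ∀ x i, |u t x i| ≤ M := by
  refine ⟨Pool.Agent.TH616.NSH.c0, Pool.Agent.TH616.NSH.c0_pos, fun q r hq hr1 hr2 => ?_⟩
  obtain ⟨C, hC, h⟩ := Pool.Agent.TH616.NSH.criterion hq hr1 hr2
  exact ⟨C, hC, fun ν T A u p X Y β γ hν hs hA hZ h0 hβ hγ hX hY =>
    h ν T A u p X Y β γ hν hs hA h0 hβ hγ hZ hX hY⟩

end Pool.Agent.Results.MP_6bf1e5_an.MixedHelicity
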