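import Pool.Agent.TH811.SPD.Str10

/-!
A regularity criterion for the three-dimensional Navier-Stokes equations on the torus which
compares the pressure at the two end points of the excursions of the speed along streamlines, for
almost every time. The proof is an energy inequality for `∫ Φ(|u|²)`: the level sets of the speed
are decomposed along the streamlines (area formula, the flow of `u(t)` preserves the volume), so
that the work of the pressure is a sum over excursions of the differences `P(x) - P(y)`.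
-/

open MeasureTheory Set H459R3.NS Pool.Agent.TH811.SPD
open scoped ENNReal

set_option autoImplicit false

namespace Pool.Agent.Results.MP_6bf1e5_an.SpeedPairs

/-- Let `3/2 < p ≤ ∞`, `3/p + 2/q = 2`, `ν > 0` and `κ₁, κ₂, lam, δ ≥ 0` with `κ₂ ≤ 1`,
`κ₁ + lam < 1` (or `κ₁ = 0`, `lam = 1`) and `κ₁ + κ₂ + lam + 9 δ < 2`, let `M` be real, and let
`(u, P)` be a smooth `1`-periodic solution of the Navier-Stokes equations with viscosity `ν` on
`[0, T) × ℝ³`. Let `β^q` and `γ` be integrable on `(0, T)`. Suppose that for almost every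
`t ∈ (0, T)` there are periodic Borel functions `f₁, f₂ ≥ 0`, with `L^p` norm of `f₁` at most `β(t)`
and `∫ f₂ z² ≤ δ ν ∫ |∇z|² + γ(t) ∫ z²` for all smooth periodic `z`, and a null set `Z`, such that
for every excursion `X : [0, τ] → ℝ³` of the speed above a value `> M` along a streamline of `u(t)`,
with entry point `x = X(0)` and exit point `y = X(τ)` outside `Z`,
`P(x) ≤ P(y) + E(x)/a(x) - E(y)/a(y) + ∫₀^τ (f (1 + |u|²) + lam ν |∇u|²)(X(r)) dr`,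
where `f = f₁ + f₂`, `a = u · ∇ (|u|² / 2)`, which is positive at `x` and negative at `y`, and
`E = ν (κ₁ |u|² |∇u|² + κ₂ |∇ (|u|² / 2)|²) + f |u|² (1 + |u|²)`.
Then `u` is bounded on `[0, T) × ℝ³`. -/
theorem result {p : ℝ≥0∞} (hp : 3 / 2 < p) {q : ℝ} (hpq : 3 * (p⁻¹).toReal + 2 / q = 2)
    {ν κ₁ κ₂ lam δ M : ℝ} (hν : 0 < ν) (hκ₁ : 0 ≤ κ₁) (hκ₂ : 0 ≤ κ₂) (hlam : 0 ≤ lam)
    (_hδ : 0 ≤ δ) (h1 : κ₂ ≤ 1) (h2 : κ₁ + lam < 1 ∨ κ₁ = 0 ∧ lam = 1)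
    (h3 : κ₁ + κ₂ + lam + 9 * δ < 2) {T : ℝ} {u : ℝ → V → V} {P : ℝ → V → ℝ}
    (h : IsSol ν T u P) {β γ : ℝ → ℝ} (hβ : IntegrableOn (fun t => β t ^ q) (Ioo 0 T))
    (hγ : IntegrableOn γ (Ioo 0 T))
    (hcomp : ∀ᵐ t ∂(volume.restrict (Ioo 0 T)), 0 ≤ β t ∧ ∃ (f₁ f₂ : V → ℝ) (Z : Set V),
      Measurable f₁ ∧ Per f₁ ∧ (∀ x, 0 ≤ f₁ x) ∧
      eLpNorm f₁ p (volume.restrict cube) ≤ ENNReal.ofReal (β t) ∧
      Measurable f₂ ∧ Per f₂ ∧ (∀ x, 0 ≤ f₂ x) ∧ IntegrableOn f₂ cube ∧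
      FormBound (δ * ν) (γ t) f₂ ∧ volume Z = 0 ∧
      ∀ (X : ℝ → V) (τ : ℝ), Excursion (u t) M X τ → X 0 ∉ Z → X τ ∉ Z →
        P t (X 0) ≤ P t (X τ)
          + endTerm ν κ₁ κ₂ (fun x => f₁ x + f₂ x) (u t) (X 0) / growth (u t) (X 0)
          - endTerm ν κ₁ κ₂ (fun x => f₁ x + f₂ x) (u t) (X τ) / growth (u t) (X τ)
          + ∫ r in Ioo 0 τ, ((f₁ (X r) + f₂ (X r)) * (1 + speed (u t) (X r) ^ 2)
            + lam * ν * grad2 (u t) (X r))) :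
    ∃ C, ∀ t ∈ Ico 0 T, ∀ x i, |u t x i| ≤ C := by
  obtain ⟨η, hη, hη1⟩ : ∃ η : ℝ, 0 < η ∧ (1 + η) * κ₁ + lam ≤ 1 := by
    rcases h2 with h2 | ⟨h4, h5⟩
    · refine ⟨(1 - (κ₁ + lam)) / (κ₁ + 1), by apply div_pos <;> linarith, ?_⟩
      have h6 : (1 - (κ₁ + lam)) / (κ₁ + 1) * κ₁ ≤ 1 - (κ₁ + lam) := by
        rw [div_mul_eq_mul_div, div_le_iff₀ (by linarith)]
        nlinarith
      linarith
    · exact ⟨1, one_pos, by rw [h4, h5]; norm_num⟩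
  exact criterion_end hp hpq hν hκ₁ hκ₂ h1 hlam hη hη1 h3 h hβ hγ hcomp

end Pool.Agent.Results.MP_6bf1e5_an.SpeedPairs
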